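import Pool.Agent.Y194.VN.Tw3

/-!
# `ℓ²`-Betti numbers and the cohomology of one torsion or `p`-adic representation

Let `M` be a contractible manifold, possibly with boundary, on which the torsion-free group `Γ` acts geometrically
(so the action is free and cocompact), and let `C` be the cochain complex of a triangulation of `M`, a complex of
finitely generated free `ℤ[Γ]`-modules; more generally let `C` be any such complex. Let `p` be a prime and let `Γ`
be residually a finite `p`-group (every finitely generated linear group has a subgroup of finite index with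
this property, for almost all `p`; the `ℓ²`-Betti numbers are multiplied by the index when one passes to this
subgroup).

Let `V = (ℤ/p^K)^n` be a representation of `Γ`, given by `ρ : Γ → GL_n(ℤ/p^K)`, such that the image of `ρ` is a
`p`-group, and let `V[p^k]` be the subrepresentation of the elements killed by `p^k`.

Theorem.

1. `n (1 + p^{-1} + … + p^{-(K-1)}) b_i^(2) ≤ ∑_{k < K} p^{-k} log_p (|H^i(Γ; V[p^{k+1}])| / |H^i(Γ; V[p^k])|)`.
2. Let `ρ : Γ → GL_n(ℤ_p)` be a representation whose reductions have images of `p`-power order, let `a` be the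
   dimension of `H^i(Γ; ρ ⊗ ℚ_p)`, and let the `ℤ/p^{v_j}` be the cyclic summands of the torsion of `H^i(Γ; ρ)` and
   `H^{i+1}(Γ; ρ)` (equivalently `|H^i(Γ; ρ mod p^k)| = p^{a k + ∑ min(k, v_j)}` for all `k`). Then

     `n b_i^(2) ≤ a + ∑_j (1 - p^{-v_j})`.

3. If for every `ε > 0` there are `K ≥ 1`, `n ≥ 1` and `V` as above for which the right hand side of 1 is at most `ε n`,
   there are no harmonic `ℓ²`-cochains of degree `i`, i.e. `b_i^(2) = 0`.
4. Let `P` be a subgroup of finite index of `Γ` all of whose finitely generated subgroups are residually (locally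
   indicable, amenable and residually finite). If for one `V` the right hand side of 1, multiplied by `[Γ : P]`, is less
   than `n (1 + p^{-1} + … + p^{-(K-1)})`, then there are no harmonic `ℓ²`-cochains of degree `i`.
   The same holds for `ρ` as in 2 if `[Γ : P] (a + ∑_j (1 - p^{-v_j})) < n`.

For degrees `i > dim M / 2` the conclusion of 3 and 4, `L²H_i(Γ) = 0`, is the assertion of the problem. For `K = 1` and the
trivial representation 1 is the well-known bound by the `𝔽_p`-Betti numbers. Permutation representations give the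
bounds by the cohomology of coverings; but all other representations (of dimensions prime to `p` and not induced), e.g.
the symmetric powers of a given `p`-adic representation, are admitted, and a torsion summand `ℤ/p^v` counts `1 - p^{-v}`
instead of `1`.

Proof. `Γ` acts on the functions `f : Γ → V^s` with `Y f = 0` which are invariant under a normal subgroup `N` of
`p`-power index in the kernel of `ρ`, by `(γ f)(x) = ρ(γ) f(γ⁻¹ x)`. The weighted length `∑ p^{-k} l(p^k-torsion)`
of this module is at most `[Γ : N]` times the weighted length of the invariants, which are the solutions of `ρ(Y) x = 0`;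
and it is `n` times the weighted length of the `N`-invariant solutions of `Y x = 0` in `ℤ/p^K`, at least
`n (1 + … + p^{-(K-1)})` times the rank of the integral `N`-invariant solutions. Lück's approximation theorem.
-/

set_option autoImplicit false

open Finset Pool.Agent.Y194.VN
open Pool.Agent.TH107.AT (LocGood)

namespace Pool.Agent.Results.MP_ea75ba_gt.TwistedCohomologyBound

/-- representations on `V = (ℤ/p^K)^n` whose image is a `p`-group -/
structure FinRep (Γ : Type) [Group Γ] (p K : ℕ) where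
  n : ℕ
  ρ : Γ →* Matrix (Fin n) (Fin n) (ZMod (p ^ K))
  pgroup : PImage p ρ

/-- representations on `ℤ_p ^ n` whose reductions have images of `p`-power order -/
structure PadicRep (Γ : Type) [Group Γ] (p : ℕ) [Fact p.Prime] where
  n : ℕ
  ρ : Γ →* Matrix (Fin n) (Fin n) ℤ_[p]
  pgroup : ∀ k, PImage p (red k ρ)

/-- `log_p |H^i(Γ; V[p^k])|` -/
noncomputable def len {Γ : Type} [Group Γ] (C : Cx Γ) (i : ℕ) {p K : ℕ} (V : FinRep Γ p K)
    (k : ℕ) : ℝ := Real.logb p (Nat.card (Ht p k V.ρ (C.b i) (C.d i)))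

/-- the weighted growth `∑_{k < K} p^{-k} (log_p |H^i(Γ; V[p^{k+1}])| - log_p |H^i(Γ; V[p^k])|)` -/
noncomputable def growth {Γ : Type} [Group Γ] (C : Cx Γ) (i : ℕ) {p K : ℕ}
    (V : FinRep Γ p K) : ℝ :=
  ∑ k ∈ range K, ((p : ℝ)⁻¹) ^ k * (len C i V (k + 1) - len C i V k)

/-- `1 + p^{-1} + … + p^{-(K-1)}` -/
noncomputable def geo (p K : ℕ) : ℝ := ∑ k ∈ range K, ((p : ℝ)⁻¹) ^ k

/-- `|H^i(Γ; ρ mod p^k)| = p^{a k + ∑ min(k, v_j)}` for all `k` -/
def HasType {Γ : Type} [Group Γ] (C : Cx Γ) (i : ℕ) {p : ℕ} [Fact p.Prime]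
    (V : PadicRep Γ p) (a : ℕ) {m : ℕ} (v : Fin m → ℕ) : Prop :=
  ∀ k, Nat.card (Ht p k (red k V.ρ) (C.b i) (C.d i)) = p ^ (a * k + ∑ j, min k (v j))

/-- `a + ∑ (1 - p^{-v_j})` -/
noncomputable def weight (p a : ℕ) {m : ℕ} (v : Fin m → ℕ) : ℝ :=
  a + ∑ j, (1 - ((p : ℝ)⁻¹) ^ v j)

/-- there are no nonzero harmonic `ℓ²`-cochains of degree `i` -/
def Vanishes {Γ : Type} [Group Γ] (C : Cx Γ) (i : ℕ) : Prop := harm (C.b i) (C.d i) = ⊥

/-- a subgroup of finite index all of whose finitely generated subgroups are residually (locally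
indicable, amenable and residually finite) -/
def Good {Γ : Type} [Group Γ] (P : Subgroup Γ) : Prop := P.index ≠ 0 ∧ LocGood P

lemma geo_pos {p K : ℕ} (hK : 0 < K) : 1 ≤ geo p K := by
  unfold geo
  have h1 : ((p : ℝ)⁻¹) ^ 0 ≤ ∑ k ∈ range K, ((p : ℝ)⁻¹) ^ k :=
    single_le_sum (f := fun k => ((p : ℝ)⁻¹) ^ k) (fun k _ => by positivity) (mem_range.2 hK)
  rwa [pow_zero] at h1

theorem result {Γ : Type} [Group Γ] {p : ℕ} [Fact p.Prime] (hΓ : ResP p Γ) (C : Cx Γ) (i : ℕ) :
    (∀ (K : ℕ) (V : FinRep Γ p K), V.n * geo p K * C.b2 i ≤ growth C i V) ∧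
    (∀ (V : PadicRep Γ p) (a m : ℕ) (v : Fin m → ℕ), HasType C i V a v →
      V.n * C.b2 i ≤ weight p a v) ∧
    ((∀ ε : ℝ, 0 < ε → ∃ (K : ℕ) (V : FinRep Γ p K), 0 < K ∧ 0 < V.n ∧
      growth C i V ≤ ε * V.n) → Vanishes C i) ∧
    ∀ P : Subgroup Γ, Good P →
      (∀ (K : ℕ) (V : FinRep Γ p K), P.index * growth C i V < V.n * geo p K → Vanishes C i) ∧
      (∀ (V : PadicRep Γ p) (a m : ℕ) (v : Fin m → ℕ), HasType C i V a v →
        P.index * weight p a v < V.n → Vanishes C i) := by
  have h1 : ∀ (K : ℕ) (V : FinRep Γ p K), V.n * geo p K * C.b2 i ≤ growth C i V :=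
    fun K V => betti_tw hΓ C i V.ρ V.pgroup
  have h2 : ∀ (V : PadicRep Γ p) (a m : ℕ) (v : Fin m → ℕ), HasType C i V a v →
      V.n * C.b2 i ≤ weight p a v := fun V a m v hv => betti_padic hΓ C i V.ρ V.pgroup hv
  have h0 : 0 ≤ C.b2 i := Pool.Agent.W656.VA.vdim_nonneg _
  refine ⟨h1, h2, fun hε => ?_, fun P hP => ⟨fun K V hlt => ?_, fun V a m v hv hlt => ?_⟩⟩
  · apply Pool.Agent.W656.VA.eq_bot_of_vdim (closed_harm _ _) (linv_harm _ _)
    refine le_of_forall_pos_le_add fun ε he => ?_
    obtain ⟨K, V, hK, hn, hg⟩ := hε ε he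
    have h3 := (h1 K V).trans hg
    have hn' : (0 : ℝ) < V.n := by exact_mod_cast hn
    have h4 : (V.n : ℝ) * C.b2 i ≤ V.n * geo p K * C.b2 i := by
      have h5 : (V.n : ℝ) * C.b2 i * 1 ≤ V.n * C.b2 i * geo p K :=
        mul_le_mul_of_nonneg_left (geo_pos hK) (mul_nonneg hn'.le h0)
      linarith
    have h6 : (V.n : ℝ) * C.b2 i ≤ V.n * ε := by linarith
    have h7 : C.b2 i ≤ ε := le_of_mul_le_mul_left h6 hn'
    rw [zero_add]
    exact h7
  · apply betti_zero C hP.1 hP.2 i
    have hP0 : (0 : ℝ) < P.index := by exact_mod_cast Nat.pos_of_ne_zero hP.1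
    have h3 : P.index * (V.n * geo p K * C.b2 i) ≤ P.index * growth C i V :=
      mul_le_mul_of_nonneg_left (h1 K V) hP0.le
    have hg0 : (0 : ℝ) ≤ V.n * geo p K :=
      mul_nonneg (Nat.cast_nonneg _) (sum_nonneg fun k _ => by positivity)
    by_contra hc
    push Not at hc
    have h4 : (V.n * geo p K) * 1 ≤ (V.n * geo p K) * (P.index * C.b2 i) :=
      mul_le_mul_of_nonneg_left hc hg0
    linarith
  · apply betti_zero C hP.1 hP.2 i
    have hP0 : (0 : ℝ) < P.index := by exact_mod_cast Nat.pos_of_ne_zero hP.1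
    have h3 : P.index * (V.n * C.b2 i) ≤ P.index * weight p a v :=
      mul_le_mul_of_nonneg_left (h2 V a m v hv) hP0.le
    by_contra hc
    push Not at hc
    have h4 : (V.n : ℝ) * 1 ≤ V.n * (P.index * C.b2 i) :=
      mul_le_mul_of_nonneg_left hc (Nat.cast_nonneg _)
    linarith

end Pool.Agent.Results.MP_ea75ba_gt.TwistedCohomologyBound
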